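import Pool.Agent.Run7.h575.OH.A4
import Pool.Agent.Run7.h575.OH.A5

/-!
# The Hilbert-Smith conjecture for homeomorphisms with a one-sided Hölder condition

Let `n ≥ 1`, let `X` be a Hausdorff space (for example an Alexandrov space of dimension `n`) and let
`Ψ i` be countably many topological charts of `X`, homeomorphisms from open sets of `X` onto open
sets of `ℝⁿ`. Nothing is assumed about the changes of coordinates or about the rest of `X`. Let `G`
be a locally compact group acting continuously on `X` and `V` a neighbourhood of `1`. Consider the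
elements `g` whose powers have compact closure contained in `V`. Suppose that

* no such `g` other than `1` fixes all points of a nonempty open subset of a chart, and
* every such `g`, read in two of the charts (which depend on `g`), satisfies a ONE-SIDED Hölder
  condition of an exponent greater than `1 - 1 / n` at the points `v` of a set which is not meagre:
  `⟨g w - g v, w - v⟩ ≥ - N |w - v| ^ (2 - β)` for all `w` near `v`, with `β < 1 / n`. The set, `N`
  and `β` depend on `g` and on the point in an arbitrary way.

Then `G` is a Lie group.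

Nothing is asked of the size of `g w - g v`: the condition says that `g` does not turn small
vectors around. It holds for monotone maps (for example gradients of convex functions), which need not
be Hölder or of a Sobolev class `W^{1,1}`, for their sums with Hölder maps, and with `β = 0` for maps which are
Lipschitz (or differentiable) at a non-meagre set of points.

Proof (files in `Pool/Agent/Run7/h575/OH/` and the starting library `Pool/Agent/R775/HS/`). By
Baire's theorem (on the chart, and on a compact totally disconnected subgroup) a coset `s K` of an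
open subgroup satisfies a uniform one-sided condition on a ball, with the same constants; such
conditions are preserved by averages. Let `F` be an average. For the pairs of points at distance at
least `r` the map `M = F + λ id`, `λ = C r ^ (-β)`, expands distances, and at the scale `r` the map
`F = M - λ id` is a Lipschitz function of `M`. Counting a maximal separated set in the image of `M`
one finds that the images under `F` of the slices `{x_i = t}` by hyperplanes are covered, for
almost all `t`, by balls with small total volume, since `r (1 + λ) ^ n → 0`. So they are null sets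
and almost all fibres of `F` are totally disconnected. By the theorem of the starting library every
fibre contains an invariant continuum, hence a fixed point, and `K` acts trivially on a ball.
-/

set_option autoImplicit false

namespace Pool.Agent.Results.MP_afaf30_gt.OneSidedHolder

open Set Metric Filter Topology

/-- One-sided Hölder condition of an exponent greater than `1 - 1 / n` for the map `f` at the point
`v`: there are `β < 1 / n` and `N` with `⟨f(w) - f(v), w - v⟩ ≥ - N |w - v| ^ (2 - β)` for all `w`
near `v`. -/
def OneSidedAt {n : ℕ} (f : EuclideanSpace ℝ (Fin n) → EuclideanSpace ℝ (Fin n))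
    (v : EuclideanSpace ℝ (Fin n)) : Prop :=
  ∃ β : ℝ, β * n < 1 ∧ ∃ N : ℝ, ∀ᶠ w in 𝓝 v,
    -(N * dist w v ^ (2 - β)) ≤ inner ℝ (f w - f v) (w - v)

/-- The powers of `g` have compact closure contained in `V`. -/
def SmallPowers {G : Type} [Group G] [TopologicalSpace G] (V : Set G) (g : G) : Prop :=
  IsCompact (closure (Subgroup.zpowers g : Set G)) ∧ closure (Subgroup.zpowers g : Set G) ⊆ V

/-- The Hilbert-Smith conjecture for locally effective actions by homeomorphisms which satisfy a
one-sided Hölder condition of an exponent greater than `1 - 1 / n` at a non-meagre set of points of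
a chart. -/
theorem result :
    ∀ (n : ℕ), 1 ≤ n → ∀ (X : Type) [TopologicalSpace X] [T2Space X]
      (Ψ : ℕ → OpenPartialHomeomorph X (EuclideanSpace ℝ (Fin n)))
      (G : Type) [Group G] [TopologicalSpace G] [IsTopologicalGroup G] [LocallyCompactSpace G]
      [T2Space G] [MulAction G X] [ContinuousSMul G X], ∀ V ∈ 𝓝 (1 : G),
      (∀ g : G, SmallPowers V g → ∀ (i : ℕ) (W : Set X), IsOpen W → W.Nonempty →
        W ⊆ (Ψ i).source → (∀ x ∈ W, g • x = x) → g = 1) →
      (∀ g : G, SmallPowers V g → ∃ i j : ℕ, ¬ IsMeagre {v | v ∈ (Ψ i).target ∧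
        g • (Ψ i).symm v ∈ (Ψ j).source ∧ OneSidedAt (fun w => Ψ j (g • (Ψ i).symm w)) v}) →
      ∃ (m : ℕ) (_ : ChartedSpace (EuclideanSpace ℝ (Fin m)) G),
        LieGroup (modelWithCornersSelf ℝ (EuclideanSpace ℝ (Fin m)))
          ((⊤ : ℕ∞) : WithTop ℕ∞) G := by
  intro n hn X _ _ Ψ G _ _ _ _ _ _ _ V hV hLE hreg
  refine Run7.h575.OH.lie_os hn Ψ hV hLE (ι := ℕ × ℕ) (r := fun _ j => (1 / 2) ^ j)
    (l := Run7.h575.OH.lseq n) (fun _ j => by positivity)
    (fun _ j => pow_le_one₀ (by norm_num) (by norm_num))
    (Run7.h575.OH.lseq_nonneg n) (Run7.h575.OH.tendsto_lseq hn) ?_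
  intro g hg
  obtain ⟨i, i', h⟩ := hreg g hg
  set T : Set (EuclideanSpace ℝ (Fin n)) :=
    (Ψ i).target ∩ (Ψ i).symm ⁻¹' {x | g • x ∈ (Ψ i').source} with hT
  have hTo : IsOpen T := by
    refine (Ψ i).symm.isOpen_inter_preimage ?_
    have hc : Continuous (fun x : X => g • x) := by fun_prop
    exact (Ψ i').open_source.preimage hc
  have hf : ContinuousOn (fun w => Ψ i' (g • (Ψ i).symm w)) T := by
    have h1 : ContinuousOn (fun w => g • (Ψ i).symm w) T :=
      ((Ψ i).continuousOn_symm.mono inter_subset_left).const_smul g
    exact (Ψ i').continuousOn.comp h1 fun w hw => hw.2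
  have hset : {v | v ∈ (Ψ i).target ∧ g • (Ψ i).symm v ∈ (Ψ i').source ∧
      OneSidedAt (fun w => Ψ i' (g • (Ψ i).symm w)) v} =
      {v | v ∈ T ∧ Run7.h575.OH.OSAt (fun w => Ψ i' (g • (Ψ i).symm w)) v} := by
    ext v
    constructor
    · rintro ⟨h1, h2, h3⟩
      exact ⟨⟨h1, h2⟩, h3⟩
    · rintro ⟨⟨h1, h2⟩, h3⟩
      exact ⟨h1, h2, h3⟩
  rw [hset] at h
  obtain ⟨k, B, hBo, hBn, hBT, hB⟩ := Run7.h575.OH.uniform hn hTo hf h
  refine ⟨i, i', k, (Ψ i).source ∩ Ψ i ⁻¹' B, (Ψ i).isOpen_inter_preimage hBo, ?_,
    inter_subset_left, ?_, 0, fun j _ => ?_⟩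
  · obtain ⟨v, hv⟩ := hBn
    refine ⟨(Ψ i).symm v, (Ψ i).map_target (hBT hv).1, ?_⟩
    rw [mem_preimage, (Ψ i).right_inv (hBT hv).1]
    exact hv
  · rintro x ⟨hx1, hx2⟩
    have h1 := (hBT hx2).2
    rwa [mem_preimage, (Ψ i).left_inv hx1] at h1
  · refine Run7.h575.OH.os_mono ?_ le_rfl (hB j)
    rintro _ ⟨x, hx, rfl⟩
    exact hx.2

end Pool.Agent.Results.MP_afaf30_gt.OneSidedHolder
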