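import Pool.Agent.Run7.h575.OI.B5

/-!
# The Hilbert-Smith conjecture for faithful actions with one-sided conditions on infinite orbits

Let `n ≥ 1`, let `X` be a Hausdorff space and let `Ψ i` be countably many topological charts of `X`,
homeomorphisms from open sets of `X` onto open sets of `ℝⁿ`, such that the union `R` of their
domains is dense and connected (for example a countable atlas of the set of the regular points of
an Alexandrov space of dimension `n`, or of a connected manifold). Nothing is assumed about the
changes of coordinates. Let a locally compact group `G` act faithfully and continuously on `X` and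
let `V` be a neighbourhood of `1`. Consider the `p`-adic elements `g` of `V`: the powers of `g` have
compact closure contained in `V`, and `g ^ (p ^ j) → 1` for a prime `p`. Suppose that every such
`g` has a power `h = g ^ M`, `M ≠ 0`, which satisfies the following condition at the points `x` of
`R` whose orbit under the powers of `g` is infinite, outside a countable union of closed totally
disconnected sets: in two of the charts `Ψ`, `Ψ'`, around `x` and `h x`,

`⟨Ψ'(h y) - Ψ'(h x), Ψ(y) - Ψ(x)⟩ ≥ - N |Ψ(y) - Ψ(x)| ^ (2 - β)`, `β < 1 / n`,

for the points `y` near `x` whose orbit under the powers of `g` is infinite. The power, the sets,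
the charts, `N` and `β` depend on `g` and on the point in an arbitrary way. Then `G` is a Lie
group.

So the condition is one-sided (it holds for maps which are monotone in the charts, and for their
sums with maps which are Hölder of an exponent bigger than `1 - 1 / n`), and there is no condition
at the points of finite orbit, in particular none in the open set where some power of `g` is
trivial.

Proof (files in `Pool/Agent/Run7/h575/OI/`, `Pool/Agent/Run7/h575/OH/` and the starting library,
mainly `Pool/Agent/N512/HS/`). Let `Z` be the closure of the set of the points of infinite orbit of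
`g` and suppose that it meets `R`. By the starting library the condensation points `P` of `Z` in a
small chart contain all nontrivial continua of `Z`, and `P` is not empty. Baire's theorem on `P`
shows that every element of a coset of the closure of the powers of `g ^ (p ^ (J + 1))` has a power
which satisfies a uniform one-sided condition, with respect to two of the charts, on a relatively
open subset of `P`; Baire's theorem on this coset gives a coset of an open subgroup. One-sided
conditions are preserved by averages, so the averages of this subgroup, in the chart given by a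
representative of the coset, satisfy a one-sided condition on `P`, and almost all of their fibres on
`P` are totally disconnected (the counting argument of the theorem `OneSidedHolder` of this page).
By the starting library such an average can be perturbed off `Z` to an invariant map whose fibres
contain no nontrivial invariant continua, so that an open subgroup acts trivially near a point of
`Z`, a contradiction. So `Z` does not meet `R`, and then the starting library shows that an open
subgroup of every compact totally disconnected group of such maps acts trivially.
-/

set_option autoImplicit false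

namespace Pool.Agent.Results.MP_afaf30_gt.OneSidedInfiniteOrbits

open Set Metric Filter Topology

/-- No positive power of `g` fixes `x`. -/
def InfiniteOrbit {G X : Type} [Group G] [MulAction G X] (g : G) (x : X) : Prop :=
  ∀ m : ℕ, 0 < m → g ^ m • x ≠ x

/-- One-sided Hölder condition of an exponent greater than `1 - 1 / n` for `h` at `x`, in two of the
charts, for the points `y` near `x` of infinite orbit under the powers of `g`. -/
def OneSidedAt {n : ℕ} {G X : Type} [Group G] [MulAction G X] [TopologicalSpace X]
    (Ψ : ℕ → OpenPartialHomeomorph X (EuclideanSpace ℝ (Fin n))) (g h : G) (x : X) : Prop :=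
  ∃ i j : ℕ, x ∈ (Ψ i).source ∧ h • x ∈ (Ψ j).source ∧ ∃ β : ℝ, β * n < 1 ∧ ∃ N : ℝ,
    ∀ᶠ y in 𝓝 x, InfiniteOrbit g y → -(N * dist (Ψ i y) (Ψ i x) ^ (2 - β)) ≤
      inner ℝ (Ψ j (h • y) - Ψ j (h • x)) (Ψ i y - Ψ i x)

/-- The powers of `g` have compact closure contained in `V`. -/
def SmallPowers {G : Type} [Group G] [TopologicalSpace G] (V : Set G) (g : G) : Prop :=
  IsCompact (closure (Subgroup.zpowers g : Set G)) ∧ closure (Subgroup.zpowers g : Set G) ⊆ V

/-- The Hilbert-Smith conjecture for faithful actions whose small `p`-adic elements satisfy a
one-sided Hölder condition of an exponent greater than `1 - 1 / n` at the points of infinite orbit,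
off countably many closed totally disconnected sets. -/
theorem result :
    ∀ (n : ℕ), 1 ≤ n → ∀ (X : Type) [TopologicalSpace X] [T2Space X]
      (Ψ : ℕ → OpenPartialHomeomorph X (EuclideanSpace ℝ (Fin n))),
      Dense (⋃ i, (Ψ i).source) → IsPreconnected (⋃ i, (Ψ i).source) →
      ∀ (G : Type) [Group G] [TopologicalSpace G] [IsTopologicalGroup G] [LocallyCompactSpace G]
        [MulAction G X] [ContinuousSMul G X] [FaithfulSMul G X], ∀ V ∈ 𝓝 (1 : G),
        (∀ g : G, SmallPowers V g → ∀ p : ℕ, p.Prime →
          Tendsto (fun j : ℕ => g ^ p ^ j) atTop (𝓝 1) →
          ∃ M : ℤ, M ≠ 0 ∧ ∃ T : ℕ → Set X, (∀ i, IsClosed (T i)) ∧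
            (∀ i, IsTotallyDisconnected (T i)) ∧
            ∀ x ∈ ⋃ i, (Ψ i).source, InfiniteOrbit g x → (∀ i, x ∉ T i) →
              OneSidedAt Ψ g (g ^ M) x) →
        ∃ (m : ℕ) (_ : ChartedSpace (EuclideanSpace ℝ (Fin m)) G),
          LieGroup (modelWithCornersSelf ℝ (EuclideanSpace ℝ (Fin m)))
            ((⊤ : ℕ∞) : WithTop ℕ∞) G := by
  intro n hn X _ _ Ψ hd hc G _ _ _ _ _ _ _ V hV hreg
  refine Run7.h575.OI.lie_osi hn Ψ hd hc hV fun g hg p hp hgp => ?_
  obtain ⟨M, hM, T, hT1, hT2, hT3⟩ := hreg g hg p hp hgp
  refine ⟨M, hM, T, hT1, hT2, fun a x hx hxI hxT => ?_⟩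
  have hI : ∀ y : X, Pool.Agent.N512.HS.InfOrbit (g ^ M) y ↔ InfiniteOrbit g y := fun y =>
    Pool.Agent.N512.HS.inf_zpow' hM
  obtain ⟨i, j, h1, h2, β, hβ, N, h3⟩ := hT3 x (mem_iUnion.2 ⟨a, hx⟩) ((hI x).1 hxI) hxT
  refine ⟨i, j, h1, h2, β, hβ, N, ?_⟩
  filter_upwards [h3] with y hy hyI
  exact hy ((hI y).1 hyI)

end Pool.Agent.Results.MP_afaf30_gt.OneSidedInfiniteOrbits
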